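import Pool.Agent.J6H32.Leg.Final

set_option autoImplicit false

/-!
# No Legendre multiplier sequence has odd degree

Proof. Apply the operator to `((1 + x) / 2) ^ N`, whose Legendre coefficients are explicit binomial
coefficients, put `x = 1 - 2 s / N` and let `N → ∞`. The coefficients of the image are exactly
computable moments of a binomial distribution; after normalisation the image tends to a multiple of
the hypergeometric series `F(s) = 1F1(d / 2 + 1; 1; -s)`. If the images have only real zeros, then so
have their products with `(1 + s / N) ^ N`, and the coefficients of the limit
`exp(s) F(s) = 1F1(-d / 2; 1; s)` satisfy Laguerre's inequality. For odd `d` they do not.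
-/

namespace Pool.Agent.Results.MP_87bea5_an.NoOddDegree

open Polynomial Pool.Agent.J6H32.Leg

/-- For every real polynomial `Q` of odd degree, the sequence `Q(0), Q(1), Q(2), …` is not a Legendre
multiplier sequence. -/
theorem result : ∀ Q : ℝ[X], Odd Q.natDegree →
    ¬ IsLegendreMultiplierSequence (fun k => Q.eval (k : ℝ)) :=
  main

end Pool.Agent.Results.MP_87bea5_an.NoOddDegree
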